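import Mathlib

set_option autoImplicit false

noncomputable section

namespace Pool.Agent.TH268.JB

open Complex

variable {E : Type} [CStarAlgebra E]

def P (u : unitary E) : Prop := ∃ l : List (selfAdjoint E), (l.map selfAdjoint.expUnitary).prod = u

theorem P_step (u v : unitary E) (h : ‖(u - v : E)‖ < 2) (hv : P v) : P u := by
  obtain ⟨l, rfl⟩ := hv
  refine ⟨(Unitary.argSelfAdjoint (u * star (l.map selfAdjoint.expUnitary).prod)) :: l, ?_⟩
  rw [List.map_cons, List.prod_cons, Unitary.expUnitary_eq_mul_inv u _ h, mul_assoc]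
  simp

theorem P_finite (w : unitary E) (hw : (spectrum ℂ (w : E)).Finite) : P w := by
  obtain ⟨t, ht⟩ : ∃ t : ℝ, -(exp (t * I)) ∉ spectrum ℂ (w : E) := by
    by_contra hcon
    push Not at hcon
    have hinj : Set.InjOn (fun t : ℝ => -(exp (t * I))) (Set.Icc 0 1) := by
      intro s hs t ht hst
      simp only [neg_inj] at hst
      rw [Complex.exp_eq_exp_iff_exists_int] at hst
      obtain ⟨n, hn⟩ := hst
      have h1 : (s : ℂ) = t + n * (2 * Real.pi) := by
        have hI : I * -I = 1 := by simp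
        calc (s : ℂ) = s * I * (-I) := by rw [mul_assoc, hI, mul_one]
          _ = (t * I + n * (2 * Real.pi * I)) * -I := hn ▸ rfl
          _ = (t + n * (2 * Real.pi)) * (I * -I) := by ring
          _ = _ := by rw [hI, mul_one]
      have h2 : s = t + n * (2 * Real.pi) := by exact_mod_cast h1
      have hpi := Real.pi_gt_three
      have hn0 : n = 0 := by
        by_contra hne
        rcases lt_or_gt_of_ne hne with h | h
        · have : (n : ℝ) ≤ -1 := by exact_mod_cast Int.le_sub_one_of_lt h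
          nlinarith [hs.1, hs.2, ht.1, ht.2]
        · have : (1 : ℝ) ≤ n := by exact_mod_cast h
          nlinarith [hs.1, hs.2, ht.1, ht.2]
      rw [h2, hn0]; simp
    have : (Set.Icc (0:ℝ) 1).Infinite := Set.Icc_infinite one_pos
    exact (this.image hinj).mono (by rintro _ ⟨t, -, rfl⟩; exact hcon t) hw
  have hone : IsSelfAdjoint ((t : ℂ) • (1 : E)) := by
    rw [isSelfAdjoint_iff, star_smul, star_one]; simp
  set x : selfAdjoint E := ⟨(t : ℂ) • (1 : E), hone⟩ with hx
  have hex : ((selfAdjoint.expUnitary x : unitary E) : E) = algebraMap ℂ E (exp (t * I)) := by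
    rw [selfAdjoint.expUnitary_coe, hx]
    simp only
    rw [smul_smul, ← Algebra.algebraMap_eq_smul_one, mul_comm, ← NormedSpace.algebraMap_exp_comm,
      Complex.exp_eq_exp_ℂ]
  refine P_step w (selfAdjoint.expUnitary x) ?_ ⟨[x], by simp⟩
  rw [Unitary.norm_sub_eq, Unitary.norm_sub_one_lt_two_iff (w * star (selfAdjoint.expUnitary x)).2]
  intro hmem
  apply ht
  have h1 : ((w * star (selfAdjoint.expUnitary x) : unitary E) : E) =
      (exp (-(t * I))) • (w : E) := by
    have : star (exp ((t : ℂ) * I)) = exp (-(t * I)) := by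
      rw [Complex.star_def, ← Complex.exp_conj]
      congr 1
      simp
    rw [Submonoid.coe_mul, Unitary.coe_star, hex, ← algebraMap_star_comm, this,
      ← Algebra.commutes, ← Algebra.smul_def]
  rw [h1] at hmem
  have hu : exp (-(t * I)) ≠ 0 := Complex.exp_ne_zero _
  have h2 := spectrum.unit_smul_eq_smul (w : E) (Units.mk0 _ hu)
  rw [Units.smul_def, Units.val_mk0] at h2
  rw [h2, Set.mem_smul_set] at hmem
  obtain ⟨y, hy, hy2⟩ := hmem
  have : y = -(exp (t * I)) := by
    rw [Units.smul_def, Units.val_mk0, smul_eq_mul] at hy2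
    have h3 : exp (t * I) * exp (-(t * I)) = 1 := by rw [← Complex.exp_add]; simp
    calc y = (exp (t * I) * exp (-(t * I))) * y := by rw [h3, one_mul]
      _ = exp (t * I) * (exp (-(t * I)) * y) := by ring
      _ = _ := by rw [hy2]; ring
  rwa [← this]

theorem finite_spec (F : StarSubalgebra ℂ E) [FiniteDimensional ℂ F] (w : E) (hw : w ∈ F) :
    (spectrum ℂ w).Finite := by
  obtain ⟨p, hp0, hp⟩ : ∃ p : Polynomial ℂ, p ≠ 0 ∧ Polynomial.aeval w p = 0 := by
    have hint : IsIntegral ℂ (⟨w, hw⟩ : F) := Algebra.IsIntegral.isIntegral _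
    refine ⟨minpoly ℂ (⟨w, hw⟩ : F), minpoly.ne_zero hint, ?_⟩
    have h1 := minpoly.aeval ℂ (⟨w, hw⟩ : F)
    have h2 := congrArg F.subtype h1
    rw [map_zero] at h2
    rw [← h2]
    exact (Polynomial.aeval_algHom_apply F.subtype.toAlgHom (⟨w, hw⟩ : F) _)
  apply (p.roots.toFinset.finite_toSet).subset
  intro z hz
  have h1 := spectrum.subset_polynomial_aeval w p ⟨z, hz, rfl⟩
  rw [hp] at h1
  have h2 : Nontrivial E := by
    by_contra hcon
    rw [not_nontrivial_iff_subsingleton] at hcon
    rw [spectrum.of_subsingleton] at hz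
    exact hz
  rw [spectrum.zero_eq] at h1
  simp only [Finset.mem_coe, Multiset.mem_toFinset, Polynomial.mem_roots hp0]
  exact h1

theorem polar_near (F : StarSubalgebra ℂ E) (hF : IsClosed (F : Set E)) (u : unitary E) (x : E)
    (hx : x ∈ F) (hux : ‖(u : E) - x‖ < 1 / 8) :
    ∃ v : unitary E, (v : E) ∈ F ∧ ‖(u - v : E)‖ < 2 := by
  nontriviality E
  set a : E := star x * x with ha
  have haF : a ∈ F := mul_mem (star_mem hx) hx
  have hasa : IsSelfAdjoint a := IsSelfAdjoint.star_mul_self x
  have hnu : ‖(u : E)‖ = 1 := CStarRing.norm_coe_unitary u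
  have hnx : ‖x‖ ≤ 9 / 8 := by
    have : x = u - (u - x) := by abel
    rw [this]
    refine (norm_sub_le _ _).trans ?_
    rw [hnu]; linarith
  have ha1 : ‖a - 1‖ ≤ 1 / 2 := by
    have h1 : a - 1 = star (x - u) * x + star (u : E) * (x - u) := by
      rw [ha, star_sub, sub_mul, mul_sub, Unitary.coe_star_mul_self]
      abel
    rw [h1]
    refine (norm_add_le _ _).trans ?_
    have h2 : ‖star (x - (u : E)) * x‖ ≤ 1 / 8 * (9 / 8) := by
      refine (norm_mul_le _ _).trans ?_
      rw [norm_star, norm_sub_rev]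
      exact mul_le_mul hux.le hnx (norm_nonneg _) (by norm_num)
    have h3 : ‖star (u : E) * (x - u)‖ ≤ 1 / 8 := by
      refine (norm_mul_le _ _).trans ?_
      rw [norm_star, hnu, one_mul, norm_sub_rev]
      exact hux.le
    linarith
  -- real spectrum of a in [1/2, 3/2]
  have hspec : ∀ t ∈ spectrum ℝ a, 1 / 2 ≤ t ∧ t ≤ 3 / 2 := by
    intro t ht
    have h1 : t - 1 ∈ spectrum ℝ (a - 1) := by
      have h0 := spectrum.sub_singleton_eq (R := ℝ) a 1
      rw [map_one] at h0
      rw [← h0]
      exact Set.sub_mem_sub ht rfl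
    have h2 := spectrum.norm_le_norm_of_mem h1
    rw [Real.norm_eq_abs, abs_le] at h2
    constructor <;> linarith [h2.1, h2.2]
  set r : E := cfc (fun t : ℝ => (Real.sqrt t)⁻¹) a with hr
  have hcont : ContinuousOn (fun t : ℝ => (Real.sqrt t)⁻¹) (spectrum ℝ a) := by
    apply ContinuousOn.inv₀ Real.continuous_sqrt.continuousOn
    intro t ht
    exact (Real.sqrt_pos.2 (by linarith [(hspec t ht).1])).ne'
  have hrF : r ∈ F := by
    have : IsClosed (F : Set E) := hF
    exact cfc_mem (𝕜 := ℝ) (𝕜' := ℂ) (s := F) _ haF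
  have hrsa : IsSelfAdjoint r := cfc_predicate _ _
  have hrar : r * a * r = 1 := by
    have h1 : a = cfc (fun t : ℝ => t) a := (cfc_id' ℝ a).symm
    have h2 : r * a * r = cfc (fun t : ℝ => (Real.sqrt t)⁻¹ * t * (Real.sqrt t)⁻¹) a := by
      rw [cfc_mul (fun t : ℝ => (Real.sqrt t)⁻¹ * t) (fun t : ℝ => (Real.sqrt t)⁻¹) a
        (hcont.mul continuousOn_id) hcont, cfc_mul (fun t : ℝ => (Real.sqrt t)⁻¹) (fun t : ℝ => t) a
        hcont continuousOn_id, ← hr, cfc_id' ℝ a]
    rw [h2, ← cfc_one ℝ a]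
    apply cfc_congr
    intro t ht
    have ht0 : 0 < t := by linarith [(hspec t ht).1]
    have hs := Real.sqrt_pos.2 ht0
    simp only [Pi.one_apply]
    have : t = Real.sqrt t * Real.sqrt t := (Real.mul_self_sqrt ht0.le).symm
    field_simp
    rw [Real.sq_sqrt ht0.le]
  have hra : Commute r a := by
    have := cfc_commute_cfc (fun t : ℝ => (Real.sqrt t)⁻¹) (fun t : ℝ => t) a
    rwa [cfc_id' ℝ a] at this
  have hr2a : r * r * a = 1 := by rw [← hrar, mul_assoc, mul_assoc, hra.eq]
  have har2 : a * (r * r) = 1 := by rw [← hrar, ← mul_assoc, hra.eq]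
  -- x is left invertible and right invertible
  have hxu : IsUnit x := by
    have h1 : ‖1 - star (u : E) * x‖ < 1 := by
      have : 1 - star (u : E) * x = star (u : E) * (u - x) := by
        rw [mul_sub, Unitary.coe_star_mul_self]
      rw [this]
      refine (norm_mul_le _ _).trans_lt ?_
      rw [norm_star, hnu, one_mul]; linarith
    have h2 : IsUnit (star (u : E) * x) := by
      have := isUnit_one_sub_of_norm_lt_one h1
      simpa using this
    have h3 : x = u * (star (u : E) * x) := by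
      rw [← mul_assoc, Unitary.mul_star_self_of_mem u.2, one_mul]
    rw [h3]
    exact (Unitary.toUnits u).isUnit.mul h2
  have hru : IsUnit r := by
    refine ⟨⟨r, r * a, ?_, ?_⟩, rfl⟩
    · rw [← mul_assoc, hr2a]
    · exact hrar
  have hvv : star (x * r) * (x * r) = 1 := by
    rw [star_mul, hrsa.star_eq]
    calc r * star x * (x * r) = r * (star x * x) * r := by noncomm_ring
      _ = 1 := hrar
  have hvu : IsUnit (x * r) := hxu.mul hru
  have hvv' : (x * r) * star (x * r) = 1 := by
    obtain ⟨w, hw⟩ := hvu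
    rw [← hw] at hvv ⊢
    have : star (w : E) = ((w⁻¹ : Eˣ) : E) := by
      calc star (w : E) = star (w : E) * (w * ((w⁻¹ : Eˣ) : E)) := by simp
        _ = _ := by rw [← mul_assoc, hvv, one_mul]
    rw [this]; simp
  refine ⟨⟨x * r, Unitary.mem_iff.2 ⟨hvv, hvv'⟩⟩, mul_mem hx hrF, ?_⟩
  have hnr : ‖r - 1‖ ≤ 1 / 2 := by
    have h1 : r - 1 = cfc (fun t : ℝ => (Real.sqrt t)⁻¹ - 1) a := by
      rw [cfc_sub (fun t : ℝ => (Real.sqrt t)⁻¹) (fun _ => 1) a hcont continuousOn_const,
        ← hr, cfc_const_one ℝ a]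
    rw [h1]
    apply norm_cfc_le (by norm_num)
    intro t ht
    obtain ⟨h1, h2⟩ := hspec t ht
    have hs := Real.sqrt_pos.2 (show 0 < t by linarith)
    have hsl : 2 / 3 ≤ Real.sqrt t := by
      apply Real.le_sqrt_of_sq_le; norm_num; linarith
    have hsu : Real.sqrt t ≤ 2 := by
      rw [Real.sqrt_le_left (by norm_num)]; linarith
    rw [Real.norm_eq_abs, abs_le]
    constructor
    · have : (2 : ℝ)⁻¹ ≤ (Real.sqrt t)⁻¹ := inv_anti₀ hs hsu
      linarith
    · have : (Real.sqrt t)⁻¹ ≤ (2 / 3 : ℝ)⁻¹ := inv_anti₀ (by norm_num) hsl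
      norm_num at this
      linarith
  have h1 : (u : E) - x * r = (u - x) - x * (r - 1) := by noncomm_ring
  change ‖(u : E) - x * r‖ < 2
  rw [h1]
  refine (norm_sub_le _ _).trans_lt ?_
  have h2 : ‖x * (r - 1)‖ ≤ 9 / 8 * (1 / 2) :=
    (norm_mul_le _ _).trans (mul_le_mul hnx hnr (norm_nonneg _) (by norm_num))
  linarith

/-- In a unital C*-algebra which is the closure of an increasing union of finite-dimensional
star subalgebras (containing the unit), every unitary is a finite product of exponentials. -/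
theorem con (F : ℕ → StarSubalgebra ℂ E)
    (hfd : ∀ n, FiniteDimensional ℂ (F n)) (hdense : ∀ (y : E) (ε : ℝ), 0 < ε →
      ∃ n, ∃ x ∈ F n, ‖y - x‖ < ε) (u : unitary E) :
    ∃ l : List (selfAdjoint E), (l.map selfAdjoint.expUnitary).prod = u := by
  obtain ⟨n, x, hx, hux⟩ := hdense u (1 / 8) (by norm_num)
  have := hfd n
  have hcl : IsClosed (F n : Set E) := (Subalgebra.toSubmodule (F n).toSubalgebra).closed_of_finiteDimensional
  obtain ⟨v, hv, huv⟩ := polar_near (F n) hcl u x hx hux
  exact P_step u v huv (P_finite v (finite_spec (F n) v hv))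

end Pool.Agent.TH268.JB

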