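import Mathlib

set_option autoImplicit false
set_option linter.unusedSectionVars false

noncomputable section

namespace Pool.Agent.TH268.JD

open Matrix
open scoped ComplexOrder

section ue

variable {J : Type} [Fintype J] [DecidableEq J] {K : J → Type} [∀ j, Fintype (K j)]
    [∀ j, DecidableEq (K j)]

/-- matrix units of the product -/
def E (j : J) (a b : K j) : ∀ j, Matrix (K j) (K j) ℂ := Pi.single j (Matrix.single a b 1)

theorem E_mul_same (j : J) (a b c : K j) : E j a b * E j b c = E j a c := by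
  rw [E, E, E, ← Pi.single_mul, Matrix.single_mul_single_same, one_mul]

theorem E_mul_ne (j : J) (a b c d : K j) (h : b ≠ c) : E j a b * E j c d = 0 := by
  rw [E, E, ← Pi.single_mul, Matrix.single_mul_single_of_ne _ _ _ _ h, Pi.single_zero]

theorem E_mul_ne' (j j' : J) (a b : K j) (c d : K j') (h : j ≠ j') : E j a b * E j' c d = 0 := by
  funext i
  rw [E, E, Pi.mul_apply, Pi.zero_apply]
  by_cases hi : i = j
  · subst hi
    rw [Pi.single_eq_of_ne h, mul_zero]
  · rw [Pi.single_eq_of_ne hi, zero_mul]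

theorem E_star (j : J) (a b : K j) : star (E j a b) = E j b a := by
  funext i
  rw [Pi.star_apply, E, E]
  by_cases hi : i = j
  · subst hi
    rw [Pi.single_eq_same, Pi.single_eq_same]
    ext x y
    rw [Matrix.star_apply, Matrix.single_apply, Matrix.single_apply]
    by_cases h : a = y ∧ b = x
    · rw [if_pos h, if_pos ⟨h.2, h.1⟩, star_one]
    · rw [if_neg h, if_neg (fun h' => h ⟨h'.2, h'.1⟩), star_zero]
  · rw [Pi.single_eq_of_ne hi, Pi.single_eq_of_ne hi, star_zero]

theorem E_sum : ∑ j, ∑ a : K j, E j a a = 1 := by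
  funext i
  rw [Finset.sum_apply, Finset.sum_eq_single i]
  · rw [Finset.sum_apply]
    simp only [E, Pi.single_eq_same, Pi.one_apply]
    exact Matrix.sum_single_one
  · intro j _ hj
    rw [Finset.sum_apply]
    apply Finset.sum_eq_zero
    intro a _
    rw [E, Pi.single_eq_of_ne hj.symm]
  · intro h; exact absurd (Finset.mem_univ _) h

theorem E_decomp (x : ∀ j, Matrix (K j) (K j) ℂ) :
    x = ∑ j, ∑ a : K j, ∑ b : K j, x j a b • E j a b := by
  funext i
  rw [Finset.sum_apply, Finset.sum_eq_single i]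
  · rw [Finset.sum_apply]
    conv_lhs => rw [Matrix.matrix_eq_sum_single (x i)]
    apply Finset.sum_congr rfl
    intro a _
    rw [Finset.sum_apply]
    apply Finset.sum_congr rfl
    intro b _
    rw [Pi.smul_apply, E, Pi.single_eq_same, Matrix.smul_single, smul_eq_mul, mul_one]
  · intro j _ hj
    rw [Finset.sum_apply]
    apply Finset.sum_eq_zero
    intro a _
    rw [Finset.sum_apply]
    apply Finset.sum_eq_zero
    intro b _
    rw [Pi.smul_apply, E, Pi.single_eq_of_ne hj.symm, smul_zero]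
  · intro h; exact absurd (Finset.mem_univ _) h

end ue

/-- Two unital *-homomorphisms from a finite product of matrix algebras into `M_L(ℂ)` with the
same trace are unitarily equivalent. The hypothesis `rk` is proved elsewhere. -/
theorem ue {J : Type} [Fintype J] [DecidableEq J] (K : J → Type) [∀ j, Fintype (K j)]
    [∀ j, DecidableEq (K j)] (a : ∀ j, K j) {L : Type} [Fintype L] [DecidableEq L]
    (rk : ∀ p q : Matrix L L ℂ, IsStarProjection p → IsStarProjection q → p.trace = q.trace →
      ∃ v : Matrix L L ℂ, star v * v = p ∧ v * star v = q)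
    (ψ ψ' : (∀ j, Matrix (K j) (K j) ℂ) →⋆ₐ[ℂ] Matrix L L ℂ)
    (h : ∀ x, (ψ x).trace = (ψ' x).trace) :
    ∃ U : Matrix L L ℂ, star U * U = 1 ∧ U * star U = 1 ∧ ∀ x, ψ' x = U * ψ x * star U := by
  have hproj : ∀ (φ : (∀ j, Matrix (K j) (K j) ℂ) →⋆ₐ[ℂ] Matrix L L ℂ) (j : J),
      IsStarProjection (φ (E j (a j) (a j))) := by
    intro φ j
    refine ⟨?_, ?_⟩
    · rw [IsIdempotentElem, ← map_mul, E_mul_same]
    · rw [isSelfAdjoint_iff, ← map_star, E_star]
  choose v hv1 hv2 using fun j => rk (ψ (E j (a j) (a j))) (ψ' (E j (a j) (a j)))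
    (hproj ψ j) (hproj ψ' j) (h _)
  have hev : ∀ j, ψ' (E j (a j) (a j)) * v j = v j := by
    intro j
    have hp := hproj ψ' j
    set q := ψ' (E j (a j) (a j)) with hq
    have h1 : (1 - q) * v j * star ((1 - q) * v j) = 0 := by
      rw [star_mul, star_sub, star_one, hp.isSelfAdjoint.star_eq]
      calc (1 - q) * v j * (star (v j) * (1 - q)) = (1 - q) * (v j * star (v j)) * (1 - q) := by
            noncomm_ring
        _ = (1 - q) * q * (1 - q) := by rw [hv2 j]
        _ = 0 := by rw [sub_mul, one_mul, hp.isIdempotentElem.eq, sub_self, zero_mul]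
    have h2 : (1 - q) * v j = 0 := by
      rw [Matrix.star_eq_conjTranspose] at h1
      exact Matrix.self_mul_conjTranspose_eq_zero.1 h1
    rw [sub_mul, one_mul, sub_eq_zero] at h2
    exact h2.symm
  set U : Matrix L L ℂ := ∑ j, ∑ b, ψ' (E j b (a j)) * v j * ψ (E j (a j) b) with hU
  have hUE : ∀ j b c, U * ψ (E j b c) = ψ' (E j b (a j)) * v j * ψ (E j (a j) c) := by
    intro j b c
    rw [hU, Finset.sum_mul, Finset.sum_eq_single j]
    · rw [Finset.sum_mul, Finset.sum_eq_single b]
      · rw [mul_assoc, ← map_mul, E_mul_same]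
      · intro b' _ hb'
        rw [mul_assoc, ← map_mul, E_mul_ne _ _ _ _ _ hb', map_zero, mul_zero]
      · intro h; exact absurd (Finset.mem_univ _) h
    · intro j' _ hj'
      rw [Finset.sum_mul]
      apply Finset.sum_eq_zero
      intro b' _
      rw [mul_assoc, ← map_mul, E_mul_ne' _ _ _ _ _ _ hj', map_zero, mul_zero]
    · intro h; exact absurd (Finset.mem_univ _) h
  have hEU : ∀ j b c, ψ' (E j b c) * U = ψ' (E j b (a j)) * v j * ψ (E j (a j) c) := by
    intro j b c
    rw [hU, Finset.mul_sum, Finset.sum_eq_single j]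
    · rw [Finset.mul_sum, Finset.sum_eq_single c]
      · rw [← mul_assoc, ← mul_assoc, ← map_mul, E_mul_same]
      · intro b' _ hb'
        rw [← mul_assoc, ← mul_assoc, ← map_mul, E_mul_ne _ _ _ _ _ hb'.symm, map_zero, zero_mul,
          zero_mul]
      · intro h; exact absurd (Finset.mem_univ _) h
    · intro j' _ hj'
      rw [Finset.mul_sum]
      apply Finset.sum_eq_zero
      intro b' _
      rw [← mul_assoc, ← mul_assoc, ← map_mul, E_mul_ne' _ _ _ _ _ _ hj'.symm, map_zero, zero_mul,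
        zero_mul]
    · intro h; exact absurd (Finset.mem_univ _) h
  have hcomm : ∀ x, ψ' x * U = U * ψ x := by
    intro x
    rw [E_decomp x]
    simp only [map_sum, map_smul, Finset.sum_mul, Finset.mul_sum, smul_mul_assoc, mul_smul_comm]
    apply Finset.sum_congr rfl
    intro j _
    apply Finset.sum_congr rfl
    intro b _
    apply Finset.sum_congr rfl
    intro c _
    rw [hUE, hEU]
  have hstar : star U = ∑ j, ∑ b, ψ (E j b (a j)) * star (v j) * ψ' (E j (a j) b) := by
    rw [hU, star_sum]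
    apply Finset.sum_congr rfl
    intro j _
    rw [star_sum]
    apply Finset.sum_congr rfl
    intro b _
    rw [star_mul, star_mul, ← map_star, ← map_star, E_star, E_star, mul_assoc]
  have hUU : star U * U = 1 := by
    rw [hstar, Finset.sum_mul]
    have h1 : ∀ j, (∑ b, ψ (E j b (a j)) * star (v j) * ψ' (E j (a j) b)) * U =
        ∑ b, ψ (E j b b) := by
      intro j
      rw [Finset.sum_mul]
      apply Finset.sum_congr rfl
      intro b _
      rw [mul_assoc, hEU]
      calc ψ (E j b (a j)) * star (v j) * (ψ' (E j (a j) (a j)) * v j * ψ (E j (a j) b))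
          = ψ (E j b (a j)) * (star (v j) * v j) * ψ (E j (a j) b) := by
            rw [hev j]; noncomm_ring
        _ = ψ (E j b b) := by
            rw [hv1 j, ← map_mul, ← map_mul, E_mul_same, E_mul_same]
    rw [Finset.sum_congr rfl fun j _ => h1 j]
    rw [← map_one ψ, ← E_sum (K := K)]
    simp only [map_sum]
  have hUU' : U * star U = 1 := by
    exact mul_eq_one_comm.1 hUU
  refine ⟨U, hUU, hUU', fun x => ?_⟩
  rw [← hcomm x, mul_assoc, hUU', mul_one]

/-- Existence of a unital *-homomorphism with prescribed multiplicities. -/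
theorem exists_hom {J : Type} [Fintype J] [DecidableEq J] (d N : J → ℕ) (D' : ℕ)
    (hD : D' = ∑ j, N j * d j) :
    ∃ f : (∀ j, Matrix (Fin (d j)) (Fin (d j)) ℂ) →⋆ₐ[ℂ] Matrix (Fin D') (Fin D') ℂ,
      ∀ x, (f x).trace = ∑ j, (N j : ℂ) * (x j).trace := by
  have hcard : Fintype.card (Σ k : (Σ j, Fin (N j)), Fin (d k.1)) = D' := by
    rw [hD, Fintype.card_sigma, Fintype.sum_sigma]
    simp
  let e : (Σ k : (Σ j, Fin (N j)), Fin (d k.1)) ≃ Fin D' := Fintype.equivFinOfCardEq hcard
  let g : (∀ j, Matrix (Fin (d j)) (Fin (d j)) ℂ) → Matrix (Fin D') (Fin D') ℂ :=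
    fun x => (Matrix.blockDiagonal' (fun k : (Σ j, Fin (N j)) => x k.1)).submatrix e.symm e.symm
  have h1 : g 1 = 1 := by
    change (Matrix.blockDiagonal' (1 : ∀ k : (Σ j, Fin (N j)), Matrix (Fin (d k.1)) (Fin (d k.1)) ℂ)).submatrix _ _ = 1
    rw [Matrix.blockDiagonal'_one, Matrix.submatrix_one_equiv]
  have h0 : g 0 = 0 := by
    change (Matrix.blockDiagonal' (0 : ∀ k : (Σ j, Fin (N j)), Matrix (Fin (d k.1)) (Fin (d k.1)) ℂ)).submatrix _ _ = 0
    rw [Matrix.blockDiagonal'_zero, Matrix.submatrix_zero]; rfl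
  have hmul : ∀ x y, g (x * y) = g x * g y := by
    intro x y
    change (Matrix.blockDiagonal' (fun k : (Σ j, Fin (N j)) => x k.1 * y k.1)).submatrix _ _ = _
    rw [Matrix.blockDiagonal'_mul, Matrix.submatrix_mul_equiv]
  have hadd : ∀ x y, g (x + y) = g x + g y := by
    intro x y
    change (Matrix.blockDiagonal' ((fun k : (Σ j, Fin (N j)) => x k.1) + fun k : (Σ j, Fin (N j)) => y k.1)).submatrix _ _ = _
    rw [Matrix.blockDiagonal'_add, Matrix.submatrix_add]; rfl
  have hsmul : ∀ (c : ℂ) x, g (c • x) = c • g x := by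
    intro c x
    change (Matrix.blockDiagonal' (c • (fun k : (Σ j, Fin (N j)) => x k.1))).submatrix _ _ = _
    rw [Matrix.blockDiagonal'_smul, Matrix.submatrix_smul]; rfl
  have hstar : ∀ x, g (star x) = star (g x) := by
    intro x
    change (Matrix.blockDiagonal' (fun k : (Σ j, Fin (N j)) => (x k.1)ᴴ)).submatrix _ _ = _
    rw [← Matrix.blockDiagonal'_conjTranspose]
    rfl
  let f : (∀ j, Matrix (Fin (d j)) (Fin (d j)) ℂ) →⋆ₐ[ℂ] Matrix (Fin D') (Fin D') ℂ :=
    { toFun := g
      map_one' := h1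
      map_mul' := hmul
      map_zero' := h0
      map_add' := hadd
      commutes' := fun c => by
        rw [Algebra.algebraMap_eq_smul_one, hsmul, h1, ← Algebra.algebraMap_eq_smul_one]
      map_star' := hstar }
  refine ⟨f, fun x => ?_⟩
  change ((Matrix.blockDiagonal' (fun k : (Σ j, Fin (N j)) => x k.1)).submatrix e.symm e.symm).trace = _
  rw [Matrix.trace]
  simp only [Matrix.diag_apply, Matrix.submatrix_apply]
  rw [Equiv.sum_comp e.symm (fun i => Matrix.blockDiagonal' (fun k : (Σ j, Fin (N j)) => x k.1) i i)]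
  rw [Fintype.sum_sigma, Fintype.sum_sigma]
  apply Finset.sum_congr rfl
  intro j _
  simp only [Matrix.blockDiagonal'_apply_eq]
  change (∑ _y : Fin (N j), (x j).trace) = _
  rw [Finset.sum_const, Finset.card_univ, Fintype.card_fin, nsmul_eq_mul]

/-- structure of *-automorphisms of `M_2` of order dividing four -/
theorem m2 (u : Matrix (Fin 2) (Fin 2) ℂ) (hu : star u * u = 1)
    (h4 : ∀ x : Matrix (Fin 2) (Fin 2) ℂ,
      u * (u * (u * (u * x * star u) * star u) * star u) * star u = x) :
    ∃ (e w : Matrix (Fin 2) (Fin 2) ℂ) (ρ : ℂ), IsStarProjection e ∧ e.trace = 1 ∧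
      star w * w = e ∧ w * star w = 1 - e ∧ u * e * star u = e ∧ u * w * star u = ρ • w ∧
      ρ ^ 4 = 1 := by
  have hu' : u * star u = 1 := mul_eq_one_comm.1 hu
  obtain ⟨μ, hμ⟩ := Module.End.exists_eigenvalue (Matrix.toLin' u)
  obtain ⟨v, hv⟩ := hμ.exists_hasEigenvector
  have hv0 := hv.2
  have hv1 : u *ᵥ v = μ • v := by
    have := hv.apply_eq_smul
    rwa [Matrix.toLin'_apply] at this
  obtain ⟨ξ, hξ1, hξ2⟩ : ∃ ξ : Fin 2 → ℂ, star (ξ 0) * ξ 0 + star (ξ 1) * ξ 1 = 1 ∧
      u *ᵥ ξ = μ • ξ := by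
    have hpos : 0 < ‖v 0‖ ^ 2 + ‖v 1‖ ^ 2 := by
      by_contra hcon
      have h0 : ‖v 0‖ = 0 := by nlinarith [norm_nonneg (v 0), norm_nonneg (v 1), sq_nonneg ‖v 0‖, sq_nonneg ‖v 1‖]
      have h1 : ‖v 1‖ = 0 := by nlinarith [norm_nonneg (v 0), norm_nonneg (v 1), sq_nonneg ‖v 0‖, sq_nonneg ‖v 1‖]
      apply hv0
      funext i
      fin_cases i
      · exact norm_eq_zero.1 h0
      · exact norm_eq_zero.1 h1
    set n : ℝ := Real.sqrt (‖v 0‖ ^ 2 + ‖v 1‖ ^ 2) with hn
    have hn0 : 0 < n := Real.sqrt_pos.2 hpos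
    have hn2 : n ^ 2 = ‖v 0‖ ^ 2 + ‖v 1‖ ^ 2 := Real.sq_sqrt hpos.le
    refine ⟨((n⁻¹ : ℝ) : ℂ) • v, ?_, ?_⟩
    · simp only [Pi.smul_apply, smul_eq_mul, star_mul', Complex.star_def, Complex.conj_ofReal]
      have h0 : (starRingEnd ℂ) (v 0) * v 0 = ((‖v 0‖ ^ 2 : ℝ) : ℂ) := by
        rw [mul_comm, Complex.mul_conj, Complex.normSq_eq_norm_sq]
      have h1 : (starRingEnd ℂ) (v 1) * v 1 = ((‖v 1‖ ^ 2 : ℝ) : ℂ) := by
        rw [mul_comm, Complex.mul_conj, Complex.normSq_eq_norm_sq]
      calc ((n⁻¹ : ℝ) : ℂ) * (starRingEnd ℂ) (v 0) * (((n⁻¹ : ℝ) : ℂ) * v 0) +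
          ((n⁻¹ : ℝ) : ℂ) * (starRingEnd ℂ) (v 1) * (((n⁻¹ : ℝ) : ℂ) * v 1)
          = ((n⁻¹ : ℝ) : ℂ) ^ 2 * ((starRingEnd ℂ) (v 0) * v 0 + (starRingEnd ℂ) (v 1) * v 1) := by
            ring
        _ = (((n⁻¹) ^ 2 * n ^ 2 : ℝ) : ℂ) := by rw [h0, h1, hn2]; push_cast; ring
        _ = 1 := by rw [← mul_pow, inv_mul_cancel₀ hn0.ne']; simp
    · rw [Matrix.mulVec_smul, hv1, smul_comm]
  set η : Fin 2 → ℂ := ![-star (ξ 1), star (ξ 0)] with hη
  set e : Matrix (Fin 2) (Fin 2) ℂ := vecMulVec ξ (star ξ) with he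
  set w : Matrix (Fin 2) (Fin 2) ℂ := vecMulVec η (star ξ) with hw
  have hξξ : star ξ ⬝ᵥ ξ = 1 := by
    simp only [dotProduct, Fin.sum_univ_two, Pi.star_apply]; exact hξ1
  have hηη : star η ⬝ᵥ η = 1 := by
    simp only [dotProduct, Fin.sum_univ_two, Pi.star_apply, hη, Matrix.cons_val_zero,
      Matrix.cons_val_one, star_neg, star_star]
    linear_combination hξ1
  have hξη : star ξ ⬝ᵥ η = 0 := by
    simp only [dotProduct, Fin.sum_univ_two, Pi.star_apply, hη, Matrix.cons_val_zero,
      Matrix.cons_val_one]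
    ring
  have hstare : star e = e := by
    rw [he]; ext i j
    simp only [Matrix.star_apply, vecMulVec_apply, Pi.star_apply, star_mul', star_star]
    ring
  have hstarw : star w = vecMulVec ξ (star η) := by
    rw [hw]; ext i j
    simp only [Matrix.star_apply, vecMulVec_apply, Pi.star_apply, star_mul', star_star]
    ring
  have hee : e * e = e := by
    rw [he, vecMulVec_mul_vecMulVec, hξξ]; simp
  have hwe : w * e = w := by
    rw [he, hw, vecMulVec_mul_vecMulVec, hξξ]; simp
  have hew : e * w = 0 := by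
    rw [he, hw, vecMulVec_mul_vecMulVec, hξη]; simp
  have hww : star w * w = e := by
    rw [hstarw, hw, vecMulVec_mul_vecMulVec, hηη, he]; simp
  have hξ1' : (starRingEnd ℂ) (ξ 0) * ξ 0 + (starRingEnd ℂ) (ξ 1) * ξ 1 = 1 := hξ1
  have hww' : w * star w = 1 - e := by
    rw [hstarw, hw, vecMulVec_mul_vecMulVec, hξξ, he]
    ext i j
    fin_cases i <;> fin_cases j <;>
      simp [vecMulVec_apply, hη] <;> [skip; ring; ring; skip] <;>
      linear_combination hξ1'
  have hue : u * e = μ • e := by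
    rw [he, mul_vecMulVec, hξ2, smul_vecMulVec]
  have hμ1 : star μ * μ = 1 := by
    have h1 : e = (star μ * μ) • e := by
      calc e = e * (star u * u) * e := by rw [hu, mul_one, hee]
        _ = star (u * e) * (u * e) := by rw [star_mul, hstare]; noncomm_ring
        _ = (star μ * μ) • e := by
          rw [hue, star_smul, hstare, smul_mul_smul_comm, hee]
    have h2 : e.trace = 1 := by
      rw [he, Matrix.trace_vecMulVec, dotProduct_comm]; exact hξξ
    have h3 := congrArg Matrix.trace h1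
    rw [Matrix.trace_smul, h2, smul_eq_mul, mul_one] at h3
    exact h3.symm
  have hetr : e.trace = 1 := by
    rw [he, Matrix.trace_vecMulVec, dotProduct_comm]; exact hξξ
  have heu' : e * star u = star μ • e := by
    have := congrArg star hue
    rwa [star_mul, hstare, star_smul, hstare] at this
  have heu : e * u = μ • e := by
    have h1 : star u * e = star μ • e := by
      calc star u * e = (μ * star μ) • (star u * e) := by rw [mul_comm, hμ1, one_smul]
        _ = star μ • (star u * (μ • e)) := by rw [mul_smul_comm, smul_smul, mul_comm]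
        _ = star μ • ((star u * u) * e) := by rw [← hue]; rw [mul_assoc]
        _ = star μ • e := by rw [hu, one_mul]
    have := congrArg star h1
    rwa [star_mul, star_star, hstare, star_smul, star_star, hstare] at this
  obtain ⟨ν, hν⟩ : ∃ ν : ℂ, u * w = ν • w := by
    refine ⟨star η ⬝ᵥ (u *ᵥ η), ?_⟩
    have h1 : e * (u * w) = 0 := by
      rw [← mul_assoc, heu, smul_mul_assoc, hew, smul_zero]
    calc u * w = (e + w * star w) * (u * w) := by rw [hww']; simp
      _ = w * star w * (u * w) := by rw [add_mul, h1, zero_add]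
      _ = vecMulVec η (star η) * vecMulVec (u *ᵥ η) (star ξ) := by
        rw [hstarw, hw, vecMulVec_mul_vecMulVec, hξξ, mul_vecMulVec]; simp
      _ = _ := by rw [vecMulVec_mul_vecMulVec, hw]; simp
  have hwu : w * star u = star μ • w := by
    calc w * star u = w * e * star u := by rw [hwe]
      _ = w * (e * star u) := by rw [mul_assoc]
      _ = star μ • w := by rw [heu', mul_smul_comm, hwe]
  have huw : u * w * star u = (ν * star μ) • w := by
    rw [hν, smul_mul_assoc, hwu, smul_smul]
  refine ⟨e, w, ν * star μ, ⟨hee, hstare⟩, hetr, hww, hww', ?_, huw, ?_⟩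
  · rw [hue, smul_mul_assoc, heu', smul_smul, mul_comm, hμ1, one_smul]
  · have h5 := h4 w
    set ρ := ν * star μ
    have h6 : u * (u * (u * (u * w * star u) * star u) * star u) * star u = ρ ^ 4 • w := by
      simp only [huw, mul_smul_comm, smul_mul_assoc, smul_smul]
      congr 1
      ring
    rw [h6] at h5
    have h7 : ρ ^ 4 • e = e := by
      calc ρ ^ 4 • e = star w * (ρ ^ 4 • w) := by rw [mul_smul_comm, hww]
        _ = e := by rw [h5, hww]
    have h8 := congrArg Matrix.trace h7
    rw [Matrix.trace_smul, hetr, smul_eq_mul, mul_one] at h8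
    exact h8

end Pool.Agent.TH268.JD
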